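import Pool.Agent.FU3.Stmts

set_option autoImplicit false

namespace Pool.Agent.FU3.H76

open Pool.Agent.FUR Pool.Agent.FU2 Pool.Agent.FU3

theorem cpf : CPFStmt := by
  intro n D r τ c F
  induction F with
  | cst b =>
    intro _
    exact ⟨0, Nat.zero_le _, CL.cst b⟩
  | var v =>
    intro h
    refine ⟨1, by simp [PF.size], ?_⟩
    exact CL.leaf _ (h v (by simp [PF.vars]))
  | neg F ih =>
    intro h
    obtain ⟨u, hu, hc⟩ := ih (fun v hv => h v (by simpa [PF.vars] using hv))
    refine ⟨u, by simp only [PF.size]; omega, ?_⟩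
    exact CL.not hc
  | and F G ihF ihG =>
    intro h
    obtain ⟨u, hu, hc⟩ := ihF (fun v hv => h v (by simp [PF.vars, hv]))
    obtain ⟨w, hw, hd⟩ := ihG (fun v hv => h v (by simp [PF.vars, hv]))
    refine ⟨u + w, by simp only [PF.size]; omega, ?_⟩
    exact CL.and hc hd
  | or F G ihF ihG =>
    intro h
    obtain ⟨u, hu, hc⟩ := ihF (fun v hv => h v (by simp [PF.vars, hv]))
    obtain ⟨w, hw, hd⟩ := ihG (fun v hv => h v (by simp [PF.vars, hv]))
    refine ⟨u + w, by simp only [PF.size]; omega, ?_⟩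
    have := CL.not (CL.and (CL.not hc) (CL.not hd))
    refine (congrArg (CL D (u + w)) ?_).mp this
    funext x
    simp [res, PF.sub, PF.eval]

end Pool.Agent.FU3.H76
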